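import Pool.Agent.H.MP_74cd3a_lc.D

set_option autoImplicit false

namespace Pool.Agent.Results.MP_74cd3a_lc.Poly

open Pool.Agent.Lib.CX Pool.Agent.H.MP_bc7fec_lc Pool.Agent.H.MP_74cd3a_lc Set Classical

/-- an undirected graph, given by its edges (end, end, length), as a mixed graph all of whose links are undirected -/
def ug (E : List (ℕ × ℕ × ℚ)) : MG := E.map fun e => (e.1, e.2.1, true, e.2.2)

/-- inputs: an undirected graph with non-negative lengths and `k` pairs of vertices -/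
abbrev In (k : ℕ) := {a : List (ℕ × ℕ × ℚ) × List (ℕ × ℕ) // (∀ e ∈ a.1, 0 ≤ e.2.2) ∧ a.2.length = k}

/-- some orientation preserves the distance of every pair -/
def Pre (k : ℕ) (a : In k) : Prop :=
  ∃ o, ∀ p ∈ a.1.2, dist (ug a.1.1) (ori (ug a.1.1) o) p.1 p.2 = dist (ug a.1.1) (bi (ug a.1.1)) p.1 p.2

theorem result (k : ℕ) : InP (Pre k) := by
  let _ : Enc (Fin k) := ⟨fun i => Enc.tr i.1, Enc.inj.comp Fin.val_injective⟩
  have h0 : PT fun a : In k => a.1 := PT.val PT.id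
  have h1 : PT fun i : Fin k => i.1 := PT.id.cast fun _ => rfl
  obtain ⟨G, g1, g2⟩ : ∃ G : In k → MG, PT G ∧ ∀ a, G a = ug a.1.1 := ⟨_, by unfold ug; fun_prop, fun _ => rfl⟩
  obtain ⟨p, p1, p2⟩ : ∃ p : In k → Fin k → ℕ × ℕ, (PT fun x : In k × Fin k => p x.1 x.2) ∧ ∀ a i, p a i = a.1.2.getD i (0, 0) :=
    ⟨_, by fun_prop, fun _ _ => rfl⟩
  obtain ⟨δ, d1, d2⟩ := bf (α := In k × Fin k) (L := fun a => Dl (G a.1)) (t := fun a => tl (G a.1)) (h := fun a => hd (G a.1))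
    (l := fun a => ln (G a.1)) (s := fun a => (p a.1 a.2).1) (by fun_prop) (by fun_prop) (by fun_prop) (by fun_prop) (by fun_prop)
  obtain ⟨X, x1, x2⟩ : ∃ X : In k → Fin k → ℕ → ℕ, (PT fun x : In k × Fin k × ℕ => X x.1 x.2.1 x.2.2) ∧
    ∀ a i v, X a i v = if rb (G a) (Dl (G a)) (p a i).1 v then δ (a, i) v else 0 := ⟨_, by fun_prop, fun _ _ _ => rfl⟩
  simp only [Dl_eq, rb_iff] at d2 x2
  have x3 : ∀ a i v, R (tl (G a)) (hd (G a)) (bi (G a)) (p a i).1 v →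
    IsLeast {w | Wk (tl (G a)) (hd (G a)) (ln (G a)) (bi (G a)) (p a i).1 v w} (X a i v) := fun a i v e => by
      rw [x2, if_pos e]; exact d2 (a, i) v e
  have b1 : ∀ a i, i < (G a).length → (lk (G a) i).2.2.1 := fun a i e => by
    rw [lk, List.getD_eq_getElem _ _ e]; simp [g2, ug]
  have b2 : ∀ a d, d ∈ Dl (G a) ↔ d ∈ bi (G a) := fun a d => by rw [← Dl_eq]; rfl
  have b3 : ∀ a, ∀ d ∈ bi (G a), rv d ∈ bi (G a) := fun a d e => ⟨e.1, fun _ => b1 a _ e.1⟩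
  refine (alg (t := fun a => tl (G a)) (h := fun a => hd (G a)) (r := rv) (ℓ := fun a d => ln (G a) d) (S := fun a => Dl (G a))
    (Z := fun a => (Dl (G a)).filter (ln (G a) · = 0)) (U := fun a => a.1.2.map (·.1) ++ (Dl (G a)).map (hd (G a)))
    (x := fun a v i => X a i v) (s := fun a i => (p a i).1)
    (τ := fun a i => if rb (G a) (Dl (G a)) (p a i).1 (p a i).2 then (p a i).2 else (p a i).1) (by fun_prop) (by fun_prop)
    (by fun_prop) (by fun_prop) (by fun_prop) (by fun_prop) (by fun_prop) (by fun_prop) (by fun_prop) (by fun_prop)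
    fun a => ⟨rv_rv, tl_rv, hd_rv, fun _ => rfl, by simpa only [b2] using b3 a, by simp, fun d e i => ?_,
      fun d e => List.mem_append_right _ (List.mem_map_of_mem e), fun i => List.mem_append_left _ (List.mem_map_of_mem ?_)⟩).of_iff
    fun a => ?_
  · rw [b2] at e
    by_cases m : R (tl (G a)) (hd (G a)) (bi (G a)) (p a i).1 (tl (G a) d)
    · exact_mod_cast (x3 a i _ (m.trans (R.one e))).2 ((x3 a i _ m).1.snoc e)
    · rw [x2, if_neg fun q => m (q.tail ⟨_, b3 a d e, tl_rv d, hd_rv d⟩)]; positivity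
  · rw [p2, List.getD_eq_getElem _ _ (a.2.2.symm ▸ i.2)]; exact List.getElem_mem _
  have hG : ∀ e ∈ G a, 0 ≤ e.2.2.2 := g2 a ▸ List.forall_mem_map.2 a.2.1
  have o1 : ∀ o, ori (G a) o ⊆ bi (G a) := fun o d h => ⟨h.1, fun e => (Bool.and_eq_true_iff.1 (h.2 ▸ e)).1⟩
  have e : ∀ P : ℕ × ℕ → Prop, (∀ q ∈ a.1.2, P q) ↔ ∀ i, P (p a i) := fun P => by
    obtain ⟨⟨E, L⟩, hE, rfl⟩ := a
    simp [p2, List.forall_mem_iff_getElem, Fin.forall_iff]
  simp only [Pre, ← g2, e, dist_iff hG (o1 _) (x3 a _ _), tight (x3 a _) (o1 _), H.MP_74cd3a_lc.Or, Dl_eq, rb_iff, Tg]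
  refine ⟨fun ⟨o, h⟩ => ⟨_, o1 o, fun d e f => ?_, fun i => ?_⟩, fun ⟨O, o1, o2, h⟩ => ⟨fun i => (i, true) ∈ O, fun i m => ?_⟩⟩
  · have := e.2.trans f.2.symm; simp [rv] at this
  · split_ifs with m
    exacts [(h i m).mono fun d c => ⟨c.1, by exact_mod_cast c.2.2⟩, .refl]
  · have := h i
    rw [if_pos m] at this
    refine this.res.mono fun ⟨j, b⟩ c => ⟨⟨(o1 c.1.1).1, ?_⟩, c.2.mono fun _ f => o1 f.1, by exact_mod_cast c.1.2⟩
    rw [b1 a _ (o1 c.1.1).1]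
    cases b
    exacts [by simpa [rv] using o2 _ c.1.1, by simpa using c.1.1]

end Pool.Agent.Results.MP_74cd3a_lc.Poly
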